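import Mathlib
import Pool.Agent.R37.RedBw
import Pool.Agent.R37.Fragile

set_option autoImplicit false
set_option linter.unusedSectionVars false

/-!
A continuous graph parameter strictly above bandwidth whose reduced value is bounded on every
class of bounded reduced bandwidth.
-/

namespace Pool.Agent.Results.MP_d92bf9_co.ContinuousAboveBandwidth

open Finset Pool.Agent.R37

/-- A graph parameter: an isomorphism-invariant map from finite graphs to natural numbers. -/
def IsParam (f : ∀ V : Type, SimpleGraph V → ℕ) : Prop :=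
  ∀ (V W : Type) [Finite V] [Finite W] (G : SimpleGraph V) (H : SimpleGraph W),
    Nonempty (G ≃g H) → f V G = f W H

/-- `f ⪯ g`. -/
def Below (f g : ∀ V : Type, SimpleGraph V → ℕ) : Prop :=
  ∃ h : ℕ → ℕ, ∀ (V : Type) [Finite V] (G : SimpleGraph V), f V G ≤ h (g V G)

/-- `f ⪯ g` and not `g ⪯ f`. -/
def StrictlyBelow (f g : ∀ V : Type, SimpleGraph V → ℕ) : Prop := Below f g ∧ ¬ Below g f

/-- Continuity of a graph parameter. -/
def ContinuousParam (f : ∀ V : Type, SimpleGraph V → ℕ) : Prop :=
  ∃ g : ℕ → ℕ,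
    (∀ (V : Type) [Finite V] (G : SimpleGraph V) (e : Sym2 V), e ∈ G.edgeSet →
      f V G ≤ g (f V (G.deleteEdges {e}))) ∧
    (∀ (V : Type) [Finite V] (G : SimpleGraph V) (v : V), (∀ w, ¬ G.Adj v w) →
      f V G ≤ g (f {w : V | w ≠ v} (G.induce {w : V | w ≠ v})))

/-- The reduced parameter `f̃`: the minimum over contraction sequences of the largest value of `f`
on a red graph. -/
noncomputable def reduced (f : ∀ V : Type, SimpleGraph V → ℕ) {V : Type} [Fintype V]
    (G : SimpleGraph V) : ℕ :=
  sInf {b : ℕ | ∃ s : ℕ → Setoid V, IsContractionSeq s ∧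
    ∀ i < Fintype.card V, f (Quotient (s i)) (redGraph G (s i)) ≤ b}

theorem bandwidth_le_of_int {W : Type} [Finite W] {H : SimpleGraph W} {b : ℕ} {φ : W → ℤ}
    (hφ : Function.Injective φ) (h : ∀ u v, H.Adj u v → |φ u - φ v| ≤ b) : bandwidth H ≤ b := by
  classical
  have := Fintype.ofFinite W
  let r : W → ℕ := fun v => (univ.filter (fun w => φ w < φ v)).card
  have hmono : ∀ u v, φ u < φ v → r u < r v := by
    intro u v huv
    apply Finset.card_lt_card
    rw [Finset.ssubset_iff_of_subset]
    · exact ⟨u, by simpa using huv, by simp⟩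
    · intro w hw
      simp only [Finset.mem_filter, Finset.mem_univ, true_and] at hw ⊢
      omega
  have hlt : ∀ v, r v < Nat.card W := by
    intro v
    rw [Nat.card_eq_fintype_card, ← Finset.card_univ]
    apply Finset.card_lt_card
    rw [Finset.ssubset_iff_of_subset (Finset.subset_univ _)]
    exact ⟨v, Finset.mem_univ _, by simp⟩
  have hinj : Function.Injective (fun v => (⟨r v, hlt v⟩ : Fin (Nat.card W))) := by
    intro u v huv
    have h1 : r u = r v := congrArg Fin.val huv
    rcases lt_trichotomy (φ u) (φ v) with h2 | h2 | h2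
    · have := hmono u v h2; omega
    · exact hφ h2
    · have := hmono v u h2; omega
  have hbij : Function.Bijective (fun v => (⟨r v, hlt v⟩ : Fin (Nat.card W))) := by
    rw [Fintype.bijective_iff_injective_and_card]
    exact ⟨hinj, by rw [Fintype.card_fin, Nat.card_eq_fintype_card]⟩
  have hdiff : ∀ u v, φ u ≤ φ v → (r v : ℤ) - r u ≤ φ v - φ u := by
    intro u v huv
    have h1 : (univ.filter (fun w => φ w < φ v)).card ≤
        (univ.filter (fun w => φ w < φ u)).card + (Finset.Ico (φ u) (φ v)).card := by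
      have h2 : (univ.filter (fun w => φ w < φ v)) ⊆
          (univ.filter (fun w => φ w < φ u)) ∪ (univ.filter (fun w => φ u ≤ φ w ∧ φ w < φ v)) := by
        intro w hw
        simp only [Finset.mem_union, Finset.mem_filter, Finset.mem_univ, true_and] at hw ⊢
        omega
      have h3 : (univ.filter (fun w => φ u ≤ φ w ∧ φ w < φ v)).card ≤
          (Finset.Ico (φ u) (φ v)).card := by
        apply Finset.card_le_card_of_injOn φ
        · intro w hw
          rw [Finset.mem_coe, Finset.mem_filter] at hw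
          rw [Finset.mem_coe, Finset.mem_Ico]
          exact hw.2
        · intro a _ b _ hab
          exact hφ hab
      have h4 := (Finset.card_le_card h2).trans (Finset.card_union_le _ _)
      omega
    rw [Int.card_Ico] at h1
    have h5 : ((φ v - φ u).toNat : ℤ) = φ v - φ u := Int.toNat_of_nonneg (by omega)
    show ((univ.filter (fun w => φ w < φ v)).card : ℤ) - (univ.filter (fun w => φ w < φ u)).card ≤ _
    omega
  apply Nat.sInf_le
  refine ⟨Equiv.ofBijective _ hbij, ?_⟩
  intro u v huv
  rw [Equiv.ofBijective_apply, Equiv.ofBijective_apply]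
  show |(r u : ℤ) - (r v : ℤ)| ≤ b
  have h1 := h u v huv
  rcases le_total (φ u) (φ v) with h2 | h2
  · have h3 := hdiff u v h2
    have h4 : r u ≤ r v := by
      rcases h2.lt_or_eq with h5 | h5
      · exact (hmono u v h5).le
      · rw [hφ h5]
    rw [abs_le] at h1 ⊢
    constructor <;> omega
  · have h3 := hdiff v u h2
    have h4 : r v ≤ r u := by
      rcases h2.lt_or_eq with h5 | h5
      · exact (hmono v u h5).le
      · rw [hφ h5]
    rw [abs_le] at h1 ⊢
    constructor <;> omega

theorem exists_int {W : Type} [Finite W] (H : SimpleGraph W) :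
    ∃ φ : W → ℤ, Function.Injective φ ∧ ∀ u v, H.Adj u v → |φ u - φ v| ≤ bandwidth H := by
  obtain ⟨σ, hσ⟩ := exists_bandwidth H
  refine ⟨fun w => ((σ w : ℕ) : ℤ), ?_, hσ⟩
  intro u v huv
  apply σ.injective
  apply Fin.ext
  have h : ((σ u : ℕ) : ℤ) = ((σ v : ℕ) : ℤ) := huv
  exact_mod_cast h

/-- the set of pairs forming edges of length more than `M` in the order `φ` -/
def longPairs (M : ℕ) {V : Type} (G : SimpleGraph V) (φ : V → ℤ) : Set (V × V) :=
  {p | G.Adj p.1 p.2 ∧ (M : ℤ) < |φ p.1 - φ p.2|}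

/-- the least number of long pairs -/
noncomputable def minLong (M : ℕ) {V : Type} (G : SimpleGraph V) : ℕ :=
  sInf {k : ℕ | ∃ φ : V → ℤ, Function.Injective φ ∧ (longPairs M G φ).ncard = k}

/-- the parameter -/
noncomputable def par (M : ℕ) (V : Type) (G : SimpleGraph V) : ℕ := bandwidth G + minLong M G

theorem minLong_le {M : ℕ} {V : Type} {G : SimpleGraph V} {φ : V → ℤ}
    (hφ : Function.Injective φ) : minLong M G ≤ (longPairs M G φ).ncard :=
  Nat.sInf_le ⟨φ, hφ, rfl⟩

theorem exists_minLong (M : ℕ) {V : Type} [Finite V] (G : SimpleGraph V) :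
    ∃ φ : V → ℤ, Function.Injective φ ∧ (longPairs M G φ).ncard = minLong M G := by
  have h : {k : ℕ | ∃ φ : V → ℤ, Function.Injective φ ∧ (longPairs M G φ).ncard = k}.Nonempty := by
    obtain ⟨φ, hφ, _⟩ := exists_int G
    exact ⟨_, φ, hφ, rfl⟩
  exact Nat.sInf_mem h

theorem bandwidth_iso_le {V W : Type} [Finite V] [Finite W] {G : SimpleGraph V}
    {H : SimpleGraph W} (e : G ≃g H) : bandwidth G ≤ bandwidth H := by
  obtain ⟨φ, hφ, h⟩ := exists_int H
  apply bandwidth_le_of_int (φ := fun v => φ (e v))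
  · intro u v huv
    exact e.injective (hφ huv)
  · intro u v huv
    exact h _ _ (e.map_rel_iff.2 huv)

theorem minLong_iso_le (M : ℕ) {V W : Type} [Finite V] [Finite W] {G : SimpleGraph V}
    {H : SimpleGraph W} (e : G ≃g H) : minLong M G ≤ minLong M H := by
  obtain ⟨φ, hφ, h⟩ := exists_minLong M H
  have hinj : Function.Injective (fun v => φ (e v)) := fun u v huv => e.injective (hφ huv)
  refine (minLong_le hinj).trans ?_
  rw [← h]
  apply Set.ncard_le_ncard_of_injOn (fun p : V × V => (e p.1, e p.2))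
  · rintro p ⟨h1, h2⟩
    exact ⟨e.map_rel_iff.2 h1, h2⟩
  · intro p _ q _ hpq
    have h3 := Prod.mk.inj hpq
    exact Prod.ext (e.injective h3.1) (e.injective h3.2)

theorem par_isParam (M : ℕ) : IsParam (par M) := by
  intro V W _ _ G H ⟨e⟩
  apply le_antisymm
  · exact Nat.add_le_add (bandwidth_iso_le e) (minLong_iso_le M e)
  · exact Nat.add_le_add (bandwidth_iso_le e.symm) (minLong_iso_le M e.symm)

theorem fold_bandwidth {V : Type} [Finite V] {G : SimpleGraph V} {u v : V} (huv : G.Adj u v) :
    bandwidth G ≤ 4 * bandwidth (G.deleteEdges {s(u, v)}) + 1 := by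
  obtain ⟨φ, hφ, h⟩ := exists_int (G.deleteEdges {s(u, v)})
  let t : V → ℤ := fun x => 2 * φ x - (φ u + φ v)
  let ψ : V → ℤ := fun x => if 0 ≤ t x then 2 * t x else 2 * (-t x) + 1
  apply bandwidth_le_of_int (φ := ψ)
  · intro x y hxy
    simp only [ψ] at hxy
    apply hφ
    split_ifs at hxy with h1 h2 h2 <;> simp only [t] at * <;> omega
  · intro x y hxy
    have key : ∀ x y, |ψ x - ψ y| ≤ 2 * |t x - t y| + 1 := by
      intro x y
      simp only [ψ]
      rcases abs_cases (t x - t y) with ⟨h1, h1'⟩ | ⟨h1, h1'⟩ <;>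
      split_ifs with h2 h3 h3 <;> rw [abs_le] <;> constructor <;> omega
    by_cases he : s(x, y) = s(u, v)
    · have h3 : |ψ x - ψ y| ≤ 1 := by
        rw [Sym2.eq_iff] at he
        rcases he with ⟨rfl, rfl⟩ | ⟨rfl, rfl⟩
        · simp only [ψ, t]
          split_ifs <;> rw [abs_le] <;> constructor <;> omega
        · simp only [ψ, t]
          split_ifs <;> rw [abs_le] <;> constructor <;> omega
      push_cast
      have : (0 : ℤ) ≤ 4 * (bandwidth (G.deleteEdges {s(u, v)}) : ℤ) := by positivity
      linarith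
    · have h4 : (G.deleteEdges {s(u, v)}).Adj x y := by
        rw [SimpleGraph.deleteEdges_adj]
        exact ⟨hxy, by simpa using he⟩
      have h5 := h x y h4
      have h6 : |t x - t y| = 2 * |φ x - φ y| := by
        simp only [t]
        rw [show 2 * φ x - (φ u + φ v) - (2 * φ y - (φ u + φ v)) = 2 * (φ x - φ y) by ring,
          abs_mul]
        norm_num
      have h7 := key x y
      push_cast
      rw [h6] at h7
      linarith

theorem minLong_add {M : ℕ} {V : Type} [Finite V] {G : SimpleGraph V} {u v : V} :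
    minLong M G ≤ minLong M (G.deleteEdges {s(u, v)}) + 2 := by
  obtain ⟨φ, hφ, h⟩ := exists_minLong M (G.deleteEdges {s(u, v)})
  refine (minLong_le hφ).trans ?_
  rw [← h]
  have hsub : longPairs M G φ ⊆ longPairs M (G.deleteEdges {s(u, v)}) φ ∪ {(u, v), (v, u)} := by
    rintro ⟨x, y⟩ ⟨h1, h2⟩
    by_cases he : s(x, y) = s(u, v)
    · right
      rw [Sym2.eq_iff] at he
      rcases he with ⟨rfl, rfl⟩ | ⟨rfl, rfl⟩
      · left; rfl
      · right; rfl
    · left
      refine ⟨?_, h2⟩
      show (G.deleteEdges {s(u, v)}).Adj x y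
      rw [SimpleGraph.deleteEdges_adj]
      exact ⟨h1, by simpa using he⟩
  refine (Set.ncard_le_ncard hsub (Set.toFinite _)).trans ?_
  refine (Set.ncard_union_le _ _).trans ?_
  have : ({(u, v), (v, u)} : Set (V × V)).ncard ≤ 2 := by
    refine (Set.ncard_insert_le _ _).trans ?_
    rw [Set.ncard_singleton]
  omega

theorem isolated {M : ℕ} {V : Type} [Finite V] {G : SimpleGraph V} {v : V}
    (hv : ∀ w, ¬ G.Adj v w) :
    bandwidth G ≤ bandwidth (G.induce {w : V | w ≠ v}) ∧
    minLong M G ≤ minLong M (G.induce {w : V | w ≠ v}) := by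
  classical
  have key : ∀ φ : {w : V | w ≠ v} → ℤ, Function.Injective φ → ∃ ψ : V → ℤ,
      Function.Injective ψ ∧ ∀ w : {w : V | w ≠ v}, ψ w = φ w := by
    intro φ hφ
    obtain ⟨z, hz⟩ : ∃ z : ℤ, z ∉ Set.range φ := by
      have h1 : (Set.range φ).Finite := Set.toFinite _
      exact h1.exists_notMem
    refine ⟨fun w => if h : w ≠ v then φ ⟨w, h⟩ else z, ?_, ?_⟩
    · intro x y hxy
      by_cases hx : x = v <;> by_cases hy : y = v
      · rw [hx, hy]
      · exfalso
        simp only [hx, ne_eq, not_true_eq_false, dite_false, hy, not_false_eq_true, dite_true]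
          at hxy
        exact hz ⟨_, hxy.symm⟩
      · exfalso
        simp only [hx, ne_eq, not_true_eq_false, dite_false, hy, not_false_eq_true, dite_true]
          at hxy
        exact hz ⟨_, hxy⟩
      · simp only [ne_eq, hx, hy, not_false_eq_true, dite_true] at hxy
        have h1 := hφ hxy
        exact congrArg Subtype.val h1
    · intro w
      have hw : w.1 ≠ v := w.2
      show (if h : w.1 ≠ v then φ ⟨w.1, h⟩ else z) = φ w
      rw [dif_pos hw]
  constructor
  · obtain ⟨φ, hφ, h⟩ := exists_int (G.induce {w : V | w ≠ v})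
    obtain ⟨ψ, hψ, hψφ⟩ := key φ hφ
    apply bandwidth_le_of_int hψ
    intro x y hxy
    have hx : x ≠ v := by rintro rfl; exact hv _ hxy
    have hy : y ≠ v := by rintro rfl; exact hv _ hxy.symm
    have h1 := h ⟨x, hx⟩ ⟨y, hy⟩ hxy
    rw [← hψφ, ← hψφ] at h1
    exact h1
  · obtain ⟨φ, hφ, h⟩ := exists_minLong M (G.induce {w : V | w ≠ v})
    obtain ⟨ψ, hψ, hψφ⟩ := key φ hφ
    refine (minLong_le hψ).trans ?_
    rw [← h]
    have hsub : longPairs M G ψ ⊆ (fun p : {w : V | w ≠ v} × {w : V | w ≠ v} =>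
        ((p.1 : V), (p.2 : V))) '' longPairs M (G.induce {w : V | w ≠ v}) φ := by
      rintro ⟨x, y⟩ ⟨h1, h2⟩
      have hx : x ≠ v := by rintro rfl; exact hv _ h1
      have hy : y ≠ v := by rintro rfl; exact hv _ h1.symm
      refine ⟨(⟨x, hx⟩, ⟨y, hy⟩), ⟨h1, ?_⟩, rfl⟩
      have h3 := hψφ ⟨x, hx⟩
      have h4 := hψφ ⟨y, hy⟩
      show (M : ℤ) < |φ ⟨x, hx⟩ - φ ⟨y, hy⟩|
      rw [← h3, ← h4]
      exact h2
    refine (Set.ncard_le_ncard hsub (Set.toFinite _)).trans ?_
    exact Set.ncard_image_le (Set.toFinite _)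

theorem par_continuous (M : ℕ) : ContinuousParam (par M) := by
  refine ⟨fun x => 4 * x + 3, ?_, ?_⟩
  · intro V _ G e he
    induction e using Sym2.ind with
    | _ u v =>
      have h1 := fold_bandwidth (G := G) (u := u) (v := v) he
      have h2 := minLong_add (M := M) (G := G) (u := u) (v := v)
      show bandwidth G + minLong M G ≤ 4 * (bandwidth (G.deleteEdges {s(u, v)}) +
        minLong M (G.deleteEdges {s(u, v)})) + 3
      omega
  · intro V _ G v hv
    obtain ⟨h1, h2⟩ := isolated (M := M) hv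
    show bandwidth G + minLong M G ≤ 4 * (bandwidth (G.induce {w : V | w ≠ v}) +
      minLong M (G.induce {w : V | w ≠ v})) + 3
    omega

/-- `t` disjoint copies of the complete graph on `M + 2` vertices -/
def copies (M t : ℕ) : SimpleGraph (Fin t × Fin (M + 2)) where
  Adj p q := p.1 = q.1 ∧ p ≠ q
  symm := ⟨fun _ _ h => ⟨h.1.symm, h.2.symm⟩⟩
  loopless := ⟨fun _ h => h.2 rfl⟩

theorem bandwidth_copies (M t : ℕ) : bandwidth (copies M t) ≤ M + 1 := by
  apply bandwidth_le_of_int (φ := fun p => ((p.1.1 * (M + 2) + p.2.1 : ℕ) : ℤ))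
  · intro p q hpq
    have h0 : ((p.1.1 * (M + 2) + p.2.1 : ℕ) : ℤ) = ((q.1.1 * (M + 2) + q.2.1 : ℕ) : ℤ) := hpq
    have h1 : p.1.1 * (M + 2) + p.2.1 = q.1.1 * (M + 2) + q.2.1 := by exact_mod_cast h0
    have hp := p.2.2
    have hq := q.2.2
    have h2 : p.1.1 = q.1.1 := by
      rcases lt_trichotomy p.1.1 q.1.1 with h | h | h
      · have : (p.1.1 + 1) * (M + 2) ≤ q.1.1 * (M + 2) := Nat.mul_le_mul_right _ h
        rw [add_mul] at this
        omega
      · exact h
      · have : (q.1.1 + 1) * (M + 2) ≤ p.1.1 * (M + 2) := Nat.mul_le_mul_right _ h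
        rw [add_mul] at this
        omega
    rw [h2] at h1
    exact Prod.ext (Fin.ext h2) (Fin.ext (by omega))
  · rintro p q ⟨h1, _⟩
    have hp := p.2.2
    have hq := q.2.2
    rw [h1]
    push_cast
    rw [abs_le]
    constructor <;> omega

theorem minLong_copies (M t : ℕ) : t ≤ minLong M (copies M t) := by
  classical
  obtain ⟨φ, hφ, h⟩ := exists_minLong M (copies M t)
  rw [← h]
  have key : ∀ i : Fin t, ∃ p : (Fin t × Fin (M + 2)) × (Fin t × Fin (M + 2)),
      p ∈ longPairs M (copies M t) φ ∧ p.1.1 = i := by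
    intro i
    by_contra hc
    push Not at hc
    have hall : ∀ a b : Fin (M + 2), |φ (i, a) - φ (i, b)| ≤ M := by
      intro a b
      by_cases hab : a = b
      · rw [hab]; simp
      · by_contra hlt
        push Not at hlt
        exact hc ((i, a), (i, b)) ⟨⟨rfl, fun h => hab (Prod.mk.inj h).2⟩, hlt⟩ rfl
    obtain ⟨a, _, ha⟩ := Finset.exists_min_image (univ : Finset (Fin (M + 2)))
      (fun a => φ (i, a)) ⟨0, Finset.mem_univ _⟩
    have h1 : (univ : Finset (Fin (M + 2))).card ≤ (Finset.Icc (φ (i, a)) (φ (i, a) + M)).card := by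
      apply Finset.card_le_card_of_injOn (fun b => φ (i, b))
      · intro b _
        have h2 := ha b (Finset.mem_univ _)
        have h3 := hall b a
        rw [abs_le] at h3
        rw [Finset.mem_coe, Finset.mem_Icc]
        constructor
        · exact h2
        · linarith [h3.2]
      · intro b _ c _ hbc
        exact (Prod.mk.inj (hφ hbc)).2
    rw [Finset.card_univ, Fintype.card_fin, Int.card_Icc] at h1
    omega
  choose p hp1 hp2 using key
  have h1 : (univ : Finset (Fin t)).card ≤ (longPairs M (copies M t) φ).ncard := by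
    rw [← Set.ncard_coe_finset]
    apply Set.ncard_le_ncard_of_injOn p
    · intro i _
      exact hp1 i
    · intro i _ j _ hij
      rw [← hp2 i, ← hp2 j, hij]
  simpa using h1

theorem par_strict (M : ℕ) : StrictlyBelow (fun _ G => bandwidth G) (par M) := by
  refine ⟨⟨id, fun V _ G => Nat.le_add_right _ _⟩, ?_⟩
  rintro ⟨h, hh⟩
  obtain ⟨K, hK⟩ : ∃ K, K = ∑ j ∈ Finset.range (M + 2), h j := ⟨_, rfl⟩
  have h1 : par M _ (copies M (K + 1)) ≤ h (bandwidth (copies M (K + 1))) :=
    hh (Fin (K + 1) × Fin (M + 2)) (copies M (K + 1))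
  have h2 := bandwidth_copies M (K + 1)
  have h3 := minLong_copies M (K + 1)
  have h4 : h (bandwidth (copies M (K + 1))) ≤ K :=
    (Finset.single_le_sum (f := h) (fun _ _ => Nat.zero_le _)
      (Finset.mem_range.2 (by omega))).trans_eq hK.symm
  have h5 : par M _ (copies M (K + 1)) = bandwidth (copies M (K + 1)) +
    minLong M (copies M (K + 1)) := rfl
  omega

/-- For every `M` there is a continuous graph parameter `f` strictly above bandwidth such that
`f̃(G) ≤ M` for every finite graph `G` of reduced bandwidth at most `M`. -/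
theorem result : ∀ M : ℕ, ∃ f : ∀ V : Type, SimpleGraph V → ℕ, IsParam f ∧ ContinuousParam f ∧
    StrictlyBelow (fun _ G => bandwidth G) f ∧
    ∀ (V : Type) [Fintype V] (G : SimpleGraph V), reducedBandwidth G ≤ M → reduced f G ≤ M := by
  intro M
  refine ⟨par M, par_isParam M, par_continuous M, par_strict M, ?_⟩
  intro V _ G hG
  obtain ⟨s, hs, hbw⟩ := exists_reducedBandwidth G
  apply Nat.sInf_le
  refine ⟨s, hs, fun i hi => ?_⟩
  have h1 := (hbw i hi).trans hG
  obtain ⟨φ, hφ, h⟩ := exists_int (redGraph G (s i))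
  have h2 : longPairs M (redGraph G (s i)) φ = ∅ := by
    rw [Set.eq_empty_iff_forall_notMem]
    rintro p ⟨h3, h4⟩
    have h5 := h _ _ h3
    have h6 : (bandwidth (redGraph G (s i)) : ℤ) ≤ M := by exact_mod_cast h1
    linarith
  have h3 := minLong_le (M := M) (G := redGraph G (s i)) hφ
  rw [h2, Set.ncard_empty] at h3
  unfold par
  omega

end Pool.Agent.Results.MP_d92bf9_co.ContinuousAboveBandwidth
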